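import Pool.Agent.Helper65.SG.Goals

/-!
# Project SG (MP_a41896_nt), packet SGT-NQV: evaluation of the reduction
-/

set_option autoImplicit false

namespace Pool.Agent.Helper14.SGT

open MvPolynomial WeierstrassCurve
open Pool.Agent.Helper29.BL Pool.Agent.Helper92.Ru Pool.Agent.Helper42.SG
open Pool.Agent.Helper65.SG

theorem t_NQV : NQV := by
  intro K _ W n F A _ _ x Ψ hW hF
  have hBf : ∀ (i : ℕ) (t : MvPolynomial (Fin (2 * n + 2)) K),
      aeval (fun h : Fin (2 * n + 2) => x h.val)
        (Bf (mapW (MvPolynomial (Fin (2 * n + 2)) K) W i) t) =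
      Bf (mapW A W i) (aeval (fun h : Fin (2 * n + 2) => x h.val) t) := by
    intro i t
    simp only [Bf, mapW, WeierstrassCurve.map_b₂, WeierstrassCurve.map_b₄,
      WeierstrassCurve.map_b₆, map_add, map_mul, map_pow, map_ofNat, AlgHom.commutes]
  have hR : aeval (Sum.elim (fun h : Fin (2 * n + 2) => x h.val)
      (fun h : Fin (2 * n + 2) => Ψ h.val)) F = ∑ m ∈ F.support, algebraMap K A (coeff m F) *
        ∏ i, (Sum.elim (fun h : Fin (2 * n + 2) => x h.val)
          (fun h : Fin (2 * n + 2) => Ψ h.val) i) ^ m i := by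
    rw [aeval_def, eval₂_eq']
  rw [hR, red, map_sum]
  refine Finset.sum_congr rfl fun m hm => ?_
  rw [map_mul, map_prod, Fintype.prod_sum_type, ← Finset.prod_mul_distrib]
  have hC : aeval (fun h : Fin (2 * n + 2) => x h.val) (C (coeff m F)) =
      algebraMap K A (coeff m F) := by
    rw [aeval_C]
  rw [hC]
  congr 1
  refine Finset.prod_congr rfl fun h _ => ?_
  rw [map_mul, map_pow, map_pow, hBf, aeval_X]
  simp only [Sum.elim_inl, Sum.elim_inr]
  congr 1
  obtain ⟨b, hb⟩ := hF m hm h
  rw [← hW h.val h.isLt, hb, ← two_mul, Nat.mul_div_cancel_left b (by norm_num), pow_mul]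

end Pool.Agent.Helper14.SGT
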